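import Pool.Agent.Y258.SD.Stmts
import Pool.Agent.H935R2.PS.A1

set_option autoImplicit false

/-!
# Jobs A6a, A6b, A6c of project SD (owner helper258): elementary counts
-/

namespace Pool.Agent.Y899.SD

open Finset Pool.Agent.H935R2.PS Pool.Agent.Y258

/-- sum over all vectors of a product of functions of the entries -/
theorem sum_prod {X ι : Type} [Fintype X] [Fintype ι] [DecidableEq ι] (f : X → ℝ) :
    ∑ h : ι → X, ∏ a, f (h a) = (∑ x, f x) ^ Fintype.card ι := by
  have := Finset.prod_univ_sum (fun _ : ι => (univ : Finset X)) (fun _ x => f x)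
  rw [Fintype.piFinset_univ] at this
  rw [← this, prod_const, card_univ]

theorem one_le_La {q : ℕ} (hq : 3 ≤ q) : 1 ≤ La q := Nat.log_pos one_lt_two (by omega)

theorem A6a : St_A6a := by
  intro κ
  refine ⟨6 ^ κ, by positivity, ?_⟩
  intro q hq hq3 ι _ _ hκ
  have : NeZero q := ⟨by omega⟩
  have h1 : ∑ h : ι → ZMod q, wm h = (∑ x : ZMod q, 1 / mx x) ^ κ := by
    rw [← hκ, ← sum_prod]
    rfl
  rw [h1, ← mul_pow]
  have h2 := sum_inv_mx (q := q) (by omega)
  have h3 : (1 : ℝ) ≤ La q := by exact_mod_cast one_le_La hq3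
  apply pow_le_pow_left₀
  · exact sum_nonneg fun x _ => by
      have := one_le_mx x
      positivity
  · linarith

open Classical in
/-- number of residues of given dyadic size, `0` included -/
theorem card_dl' {q : ℕ} [NeZero q] (b : ℕ) :
    (((univ : Finset (ZMod q)).filter (fun x => dl x = b)).card : ℝ) ≤ 3 * 2 ^ b := by
  have h1 : ((univ : Finset (ZMod q)).filter (fun x => dl x = b)) ⊆
      insert 0 ((univ : Finset (ZMod q)).filter (fun x => x ≠ 0 ∧ dl x = b)) := by
    intro x hx
    by_cases h0 : x = 0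
    · simp [h0]
    · simp only [mem_insert, mem_filter, mem_univ, true_and] at hx ⊢
      exact Or.inr ⟨h0, hx⟩
  have h2 := (card_le_card h1).trans (card_insert_le _ _)
  have h3 := card_dl (q := q) b
  have h4 : 1 ≤ 2 ^ b := Nat.one_le_two_pow
  have h5 : ((univ : Finset (ZMod q)).filter (fun x => dl x = b)).card ≤ 3 * 2 ^ b := by
    rw [pow_succ] at h3
    omega
  exact_mod_cast h5

open Classical in
/-- number of vectors in a dyadic box -/
theorem card_box {q : ℕ} [NeZero q] {ι : Type} [Fintype ι] [DecidableEq ι] (b : ι → ℕ) :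
    (((univ : Finset (ι → ZMod q)).filter (fun h => ∀ a, dl (h a) = b a)).card : ℝ) ≤
      3 ^ Fintype.card ι * 2 ^ (∑ a, b a) := by
  have h1 : ((univ : Finset (ι → ZMod q)).filter (fun h => ∀ a, dl (h a) = b a)) =
      Fintype.piFinset (fun a => (univ : Finset (ZMod q)).filter (fun x => dl x = b a)) := by
    ext h
    simp [Fintype.mem_piFinset]
  rw [h1, Fintype.card_piFinset]
  push_cast
  calc ∏ a, (((univ : Finset (ZMod q)).filter (fun x => dl x = b a)).card : ℝ)
      ≤ ∏ a : ι, (3 * (2:ℝ) ^ (b a)) :=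
        prod_le_prod (fun a _ => Nat.cast_nonneg _) fun a _ => card_dl' (b a)
    _ = 3 ^ Fintype.card ι * 2 ^ (∑ a, b a) := by
        rw [prod_mul_distrib, prod_const, card_univ, prod_pow_eq_pow_sum]

/-- the number of exponent vectors with a given sum -/
theorem card_sum_eq {ι : Type} [Fintype ι] [DecidableEq ι] (a0 : ι) (L s : ℕ) :
    ((Fintype.piFinset (fun _ : ι => range (L + 1))).filter (fun b => ∑ a, b a = s)).card ≤
      (L + 1) ^ (Fintype.card ι - 1) := by
  classical
  have h1 : ((Fintype.piFinset (fun _ : ι => range (L + 1))).filter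
      (fun b => ∑ a, b a = s)).card ≤
      (Fintype.piFinset (fun _ : {a : ι // a ≠ a0} => range (L + 1))).card := by
    refine card_le_card_of_injOn (fun b a => b a.1) ?_ ?_
    · intro b hb
      rw [mem_coe, mem_filter, Fintype.mem_piFinset] at hb
      rw [mem_coe, Fintype.mem_piFinset]
      intro a
      exact hb.1 a.1
    · intro b hb b' hb' heq
      rw [mem_coe, mem_filter, Fintype.mem_piFinset] at hb hb'
      have hne : ∀ a, a ≠ a0 → b a = b' a := fun a ha => congrFun heq ⟨a, ha⟩
      have hs : ∑ a ∈ univ.erase a0, b a = ∑ a ∈ univ.erase a0, b' a :=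
        sum_congr rfl fun a ha => hne a (ne_of_mem_erase ha)
      have e1 := add_sum_erase univ b (mem_univ a0)
      have e2 := add_sum_erase univ b' (mem_univ a0)
      funext a
      by_cases ha : a = a0
      · subst ha
        have := hb.2
        have := hb'.2
        omega
      · exact hne a ha
  refine h1.trans ?_
  rw [Fintype.card_piFinset, prod_const, card_range, card_univ]
  have h2 : Fintype.card {a : ι // a ≠ a0} = Fintype.card ι - 1 := by
    rw [Fintype.card_subtype_compl, Fintype.card_subtype_eq]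
  rw [h2]

/-- sum of `2 ^ (b_1 + ... + b_κ)` over the box vectors with sum at most `S` -/
theorem sum_box {ι : Type} [Fintype ι] [DecidableEq ι] (a0 : ι) (L S : ℕ) :
    ∑ b ∈ (Fintype.piFinset (fun _ : ι => range (L + 1))).filter (fun b => ∑ a, b a ≤ S),
      (2:ℝ) ^ (∑ a, b a) ≤ (L + 1 : ℝ) ^ (Fintype.card ι - 1) * 2 ^ (S + 1) := by
  classical
  have h1 : ∀ b ∈ (Fintype.piFinset (fun _ : ι => range (L + 1))).filter
      (fun b => ∑ a, b a ≤ S), ∑ a, b a ∈ range (S + 1) := by
    intro b hb
    rw [mem_filter] at hb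
    rw [mem_range]
    omega
  rw [← sum_fiberwise_of_maps_to h1]
  calc ∑ s ∈ range (S + 1), ∑ b ∈ ((Fintype.piFinset (fun _ : ι => range (L + 1))).filter
        (fun b => ∑ a, b a ≤ S)).filter (fun b => ∑ a, b a = s), (2:ℝ) ^ (∑ a, b a)
      ≤ ∑ s ∈ range (S + 1), ((L + 1 : ℝ) ^ (Fintype.card ι - 1)) * 2 ^ s := by
        apply sum_le_sum
        intro s _
        have e1 : ∑ b ∈ ((Fintype.piFinset (fun _ : ι => range (L + 1))).filter
            (fun b => ∑ a, b a ≤ S)).filter (fun b => ∑ a, b a = s), (2:ℝ) ^ (∑ a, b a) =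
            ∑ b ∈ ((Fintype.piFinset (fun _ : ι => range (L + 1))).filter
            (fun b => ∑ a, b a ≤ S)).filter (fun b => ∑ a, b a = s), (2:ℝ) ^ s := by
          apply sum_congr rfl
          intro b hb
          rw [(mem_filter.1 hb).2]
        rw [e1, sum_const, nsmul_eq_mul]
        apply mul_le_mul_of_nonneg_right _ (by positivity)
        have e2 : (((Fintype.piFinset (fun _ : ι => range (L + 1))).filter
            (fun b => ∑ a, b a ≤ S)).filter (fun b => ∑ a, b a = s)).card ≤
            (L + 1) ^ (Fintype.card ι - 1) := by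
          refine (card_le_card ?_).trans (card_sum_eq a0 L s)
          intro b hb
          rw [mem_filter, mem_filter] at hb
          rw [mem_filter]
          exact ⟨hb.1.1, hb.2⟩
        exact_mod_cast e2
    _ = (L + 1 : ℝ) ^ (Fintype.card ι - 1) * ∑ s ∈ range (S + 1), (2:ℝ) ^ s := by rw [mul_sum]
    _ ≤ _ := by
        apply mul_le_mul_of_nonneg_left _ (by positivity)
        have := geom_sum_eq (show (2:ℝ) ≠ 1 by norm_num) (S + 1)
        rw [this]
        have : (0:ℝ) < 2 ^ (S + 1) := by positivity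
        norm_num

theorem A6b : St_A6b := by
  intro κ hκ1
  refine ⟨2 * 3 ^ κ * 2 ^ κ, by positivity, ?_⟩
  intro q hq hq3 ι _ _ hκ D K0
  classical
  have : NeZero q := ⟨by omega⟩
  have hL := one_le_La hq3
  have hne : Nonempty ι := Fintype.card_pos_iff.1 (by omega)
  obtain ⟨a0⟩ := hne
  by_cases hK : K0 ≤ D * La q
  · set S := D * La q - K0 with hS
    set F := (univ : Finset (ι → ZMod q)).filter (fun h => Bd D K0 h) with hF
    have hmap : ∀ h ∈ F, (fun a => dl (h a)) ∈
        (Fintype.piFinset (fun _ : ι => range (La q + 1))).filter (fun b => ∑ a, b a ≤ S) := by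
      intro h hh
      rw [hF, mem_filter] at hh
      rw [mem_filter, Fintype.mem_piFinset]
      refine ⟨fun a => mem_range.2 (Nat.lt_succ_of_le (dl_le _)), ?_⟩
      have := hh.2
      unfold Bd sz at this
      show ∑ a, dl (h a) ≤ S
      omega
    set BB := (Fintype.piFinset (fun _ : ι => range (La q + 1))).filter
        (fun b => ∑ a, b a ≤ S) with hBB
    have h1 : (F.card : ℝ) = ∑ b ∈ BB, ((F.filter (fun h => (fun a => dl (h a)) = b)).card : ℝ) := by
      exact_mod_cast card_eq_sum_card_fiberwise hmap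
    rw [h1]
    calc ∑ b ∈ BB, ((F.filter (fun h => (fun a => dl (h a)) = b)).card : ℝ)
        ≤ ∑ b ∈ BB, (3 : ℝ) ^ κ * (2:ℝ) ^ (∑ a, b a) := by
          apply sum_le_sum
          intro b _
          rw [← hκ]
          refine le_trans ?_ (card_box (q := q) b)
          have : (F.filter (fun h => (fun a => dl (h a)) = b)).card ≤
              ((univ : Finset (ι → ZMod q)).filter (fun h => ∀ a, dl (h a) = b a)).card := by
            apply card_le_card
            intro h hh
            rw [mem_filter] at hh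
            rw [mem_filter]
            exact ⟨mem_univ _, fun a => congrFun hh.2 a⟩
          exact_mod_cast this
      _ = 3 ^ κ * ∑ b ∈ BB, (2:ℝ) ^ (∑ a, b a) := by rw [mul_sum]
      _ ≤ 3 ^ κ * ((La q + 1 : ℝ) ^ (κ - 1) * 2 ^ (S + 1)) := by
          apply mul_le_mul_of_nonneg_left _ (by positivity)
          have := sum_box a0 (La q) S
          rw [hκ] at this
          exact this
      _ ≤ 3 ^ κ * ((2 * La q : ℝ) ^ (κ - 1) * 2 ^ (S + 1)) := by
          have : (1:ℝ) ≤ La q := by exact_mod_cast hL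
          gcongr
          linarith
      _ = 3 ^ κ * (2 ^ (κ - 1) * (La q : ℝ) ^ (κ - 1) * (2 * (2 ^ (D * La q) / 2 ^ K0))) := by
          rw [mul_pow, pow_succ, hS]
          have : (2:ℝ) ^ (D * La q - K0) = 2 ^ (D * La q) / 2 ^ K0 := by
            rw [eq_div_iff (by positivity), ← pow_add, Nat.sub_add_cancel hK]
          rw [this]
          ring
      _ ≤ _ := by
          have h2 : (2:ℝ) ^ (κ - 1) ≤ 2 ^ κ := pow_le_pow_right₀ (by norm_num) (by omega)
          have h3 : (0:ℝ) ≤ (La q : ℝ) ^ (κ - 1) := by positivity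
          calc 3 ^ κ * (2 ^ (κ - 1) * (La q : ℝ) ^ (κ - 1) * (2 * (2 ^ (D * La q) / 2 ^ K0)))
              ≤ 3 ^ κ * (2 ^ κ * (La q : ℝ) ^ (κ - 1) * (2 * (2 ^ (D * La q) / 2 ^ K0))) := by
                gcongr
            _ = _ := by ring
  · have : ((univ : Finset (ι → ZMod q)).filter (fun h => Bd D K0 h)) = ∅ := by
      rw [filter_eq_empty_iff]
      intro h _ hb
      unfold Bd at hb
      omega
    rw [this]
    simp only [card_empty, Nat.cast_zero]
    positivity

/-- a vector of natural numbers below a given one with a given sum -/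
theorem exists_le_sum {ι : Type} [Fintype ι] [DecidableEq ι] (b : ι → ℕ) (T : ℕ)
    (hT : T ≤ ∑ a, b a) : ∃ s : ι → ℕ, (∀ a, s a ≤ b a) ∧ ∑ a, s a = T := by
  induction T with
  | zero => exact ⟨fun _ => 0, fun a => Nat.zero_le _, by simp⟩
  | succ T ih =>
    obtain ⟨s, hs, hsum⟩ := ih (by omega)
    obtain ⟨a0, ha0⟩ : ∃ a, s a < b a := by
      by_contra hc
      push Not at hc
      have : ∑ a, b a ≤ ∑ a, s a := sum_le_sum fun a _ => hc a
      omega
    refine ⟨Function.update s a0 (s a0 + 1), ?_, ?_⟩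
    · intro a
      by_cases h : a = a0
      · subst h; rw [Function.update_self]; omega
      · rw [Function.update_of_ne h]; exact hs a
    · rw [← add_sum_erase univ _ (mem_univ a0), Function.update_self]
      have e1 : ∑ a ∈ univ.erase a0, Function.update s a0 (s a0 + 1) a =
          ∑ a ∈ univ.erase a0, s a :=
        sum_congr rfl fun a ha => by rw [Function.update_of_ne (ne_of_mem_erase ha)]
      have e2 := add_sum_erase univ s (mem_univ a0)
      rw [e1]
      omega

/-- the least residue of a difference -/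
theorem nn_sub_le {q : ℕ} [NeZero q] (x y : ZMod q) :
    nn (x - y) ≤ (x.valMinAbs - y.valMinAbs).natAbs := by
  have h := nn_intCast_le (q := q) (x.valMinAbs - y.valMinAbs)
  rwa [Int.cast_sub, ZMod.coe_valMinAbs, ZMod.coe_valMinAbs] at h

open Classical in
/-- the elements of `Λ` in a dyadic box -/
theorem card_lattice_box {q : ℕ} [hq : Fact q.Prime] {ι : Type} [Fintype ι] [DecidableEq ι]
    (D K0 : ℕ) (Λ : Submodule (ZMod q) (ι → ZMod q)) (hΛ : ∀ h ∈ Λ, h ≠ 0 → ¬ Bd D K0 h)
    (b : ι → ℕ) :
    (((univ : Finset (ι → ZMod q)).filter (fun h => (h ∈ Λ ∧ h ≠ 0) ∧ ∀ a, dl (h a) = b a)).card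
      : ℝ) ≤ 4 ^ Fintype.card ι * 2 ^ (∑ a, b a) * 2 ^ K0 / 2 ^ (D * La q) := by
  have : NeZero q := ⟨hq.out.ne_zero⟩
  set N := (univ : Finset (ι → ZMod q)).filter (fun h => (h ∈ Λ ∧ h ≠ 0) ∧ ∀ a, dl (h a) = b a)
    with hN
  by_cases hK : K0 ≤ D * La q
  · by_cases hb : ∑ a, b a + K0 ≤ D * La q
    · -- no element
      have : N = ∅ := by
        rw [hN, filter_eq_empty_iff]
        rintro h _ ⟨⟨h1, h2⟩, h3⟩
        apply hΛ h h1 h2
        unfold Bd sz
        simp_rw [h3]
        exact hb
      rw [this]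
      simp only [card_empty, Nat.cast_zero]
      positivity
    · obtain ⟨s, hs, hsum⟩ := exists_le_sum b (D * La q - K0) (by omega)
      -- the cells
      have hcard : N.card ≤ (Fintype.piFinset (fun a : ι => range (2 ^ (b a + 2 - s a)))).card := by
        refine card_le_card_of_injOn
          (fun h a => (((h a).valMinAbs + 2 ^ (b a + 1)) / 2 ^ (s a)).toNat) ?_ ?_
        · intro h hh
          rw [mem_coe, hN, mem_filter] at hh
          rw [mem_coe, Fintype.mem_piFinset]
          intro a
          rw [mem_range]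
          have h1 : nn (h a) < 2 ^ (b a + 1) := by
            have := nn_lt_two_pow (h a)
            rwa [hh.2.2 a] at this
          unfold nn at h1
          have h2 : ((2 ^ (b a + 1) : ℕ) : ℤ) = 2 ^ (b a + 1) := by push_cast; rfl
          have h3 : -(2 ^ (b a + 1) : ℤ) < (h a).valMinAbs ∧ (h a).valMinAbs < 2 ^ (b a + 1) := by
            rw [← h2]; omega
          have h4 : 0 ≤ (h a).valMinAbs + 2 ^ (b a + 1) := by linarith [h3.1]
          have h5 : (h a).valMinAbs + 2 ^ (b a + 1) < 2 ^ (b a + 2 - s a) * 2 ^ (s a) := by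
            rw [← pow_add, Nat.sub_add_cancel (by have := hs a; omega)]
            have h9 : (2:ℤ) ^ (b a + 2) = 2 * 2 ^ (b a + 1) := by ring
            rw [h9]
            linarith [h3.2]
          have h6 : ((h a).valMinAbs + 2 ^ (b a + 1)) / 2 ^ (s a) < 2 ^ (b a + 2 - s a) :=
            Int.ediv_lt_of_lt_mul (by positivity) h5
          have h7 : 0 ≤ ((h a).valMinAbs + 2 ^ (b a + 1)) / 2 ^ (s a) :=
            Int.ediv_nonneg h4 (by positivity)
          have h8 : (((h a).valMinAbs + 2 ^ (b a + 1)) / 2 ^ (s a)).toNat < 2 ^ (b a + 2 - s a) := by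
            zify
            rw [Int.toNat_of_nonneg h7]
            exact h6
          exact h8
        · intro h hh h' hh' heq
          rw [mem_coe, hN, mem_filter] at hh hh'
          by_contra hne
          have hsub : h - h' ∈ Λ := Λ.sub_mem hh.2.1.1 hh'.2.1.1
          apply hΛ _ hsub (sub_ne_zero.2 hne)
          unfold Bd sz
          have hdl : ∀ a, dl ((h - h') a) ≤ s a := by
            intro a
            have h0 := congrFun heq a
            simp only at h0
            have pos : ∀ g : ι → ZMod q, (∀ a, dl (g a) = b a) →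
                0 ≤ ((g a).valMinAbs + 2 ^ (b a + 1)) / 2 ^ (s a) := by
              intro g hg
              apply Int.ediv_nonneg _ (by positivity)
              have h1 : nn (g a) < 2 ^ (b a + 1) := by
                have := nn_lt_two_pow (g a)
                rwa [hg a] at this
              unfold nn at h1
              have h2 : ((2 ^ (b a + 1) : ℕ) : ℤ) = 2 ^ (b a + 1) := by push_cast; rfl
              rw [← h2]; omega
            have p1 := pos h hh.2.2
            have p2 := pos h' hh'.2.2
            have h1 : ((h a).valMinAbs + 2 ^ (b a + 1)) / 2 ^ (s a) =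
                ((h' a).valMinAbs + 2 ^ (b a + 1)) / 2 ^ (s a) := by omega
            have hpos : (0:ℤ) < 2 ^ (s a) := by positivity
            have e1 := Int.emod_add_mul_ediv ((h a).valMinAbs + 2 ^ (b a + 1)) (2 ^ (s a))
            have e2 := Int.emod_add_mul_ediv ((h' a).valMinAbs + 2 ^ (b a + 1)) (2 ^ (s a))
            have m1 := Int.emod_nonneg ((h a).valMinAbs + 2 ^ (b a + 1)) hpos.ne'
            have m2 := Int.emod_nonneg ((h' a).valMinAbs + 2 ^ (b a + 1)) hpos.ne'
            have m3 := Int.emod_lt_of_pos ((h a).valMinAbs + 2 ^ (b a + 1)) hpos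
            have m4 := Int.emod_lt_of_pos ((h' a).valMinAbs + 2 ^ (b a + 1)) hpos
            rw [h1] at e1
            have h2 : ((h a).valMinAbs - (h' a).valMinAbs).natAbs < 2 ^ (s a) := by
              zify
              rw [abs_lt]
              constructor <;> linarith
            have h3 : nn ((h - h') a) < 2 ^ (s a) := lt_of_le_of_lt (nn_sub_le _ _) h2
            unfold dl
            exact Nat.le_of_lt_succ (Nat.log_lt_of_lt_pow' (by omega)
              (lt_of_lt_of_le h3 (Nat.pow_le_pow_right (by norm_num) (by omega))))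
          have : ∑ a, dl ((h - h') a) ≤ ∑ a, s a := sum_le_sum fun a _ => hdl a
          omega
      rw [Fintype.card_piFinset] at hcard
      simp_rw [card_range] at hcard
      have hcard' : (N.card : ℝ) ≤ ∏ a : ι, (2:ℝ) ^ (b a + 2 - s a) := by exact_mod_cast hcard
      refine hcard'.trans (le_of_eq ?_)
      rw [prod_pow_eq_pow_sum]
      have e1 : ∑ a, (b a + 2 - s a) + ∑ a, s a = ∑ a, b a + 2 * Fintype.card ι := by
        rw [← sum_add_distrib]
        have : ∑ a, (b a + 2 - s a + s a) = ∑ a, (b a + 2) :=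
          sum_congr rfl fun a _ => by have := hs a; omega
        rw [this, sum_add_distrib, sum_const, card_univ, smul_eq_mul]
        ring
      rw [hsum] at e1
      rw [eq_div_iff (by positivity), ← pow_add]
      have e2 : (4:ℝ) ^ Fintype.card ι = 2 ^ (2 * Fintype.card ι) := by
        rw [pow_mul]; norm_num
      rw [e2, ← pow_add, ← pow_add]
      congr 1
      omega
  · -- trivial bound
    have h1 : (N.card : ℝ) ≤ 3 ^ Fintype.card ι * 2 ^ (∑ a, b a) := by
      refine le_trans ?_ (card_box (q := q) b)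
      have : N.card ≤ ((univ : Finset (ι → ZMod q)).filter (fun h => ∀ a, dl (h a) = b a)).card := by
        apply card_le_card
        intro h hh
        rw [hN, mem_filter] at hh
        rw [mem_filter]
        exact ⟨mem_univ _, hh.2.2⟩
      exact_mod_cast this
    refine h1.trans ?_
    have h2 : (2:ℝ) ^ (D * La q) ≤ 2 ^ K0 := pow_le_pow_right₀ (by norm_num) (by omega)
    rw [mul_div_assoc]
    have h3 : (1:ℝ) ≤ 2 ^ K0 / 2 ^ (D * La q) := by
      rw [le_div_iff₀ (by positivity)]; linarith
    have h4 : (3:ℝ) ^ Fintype.card ι ≤ 4 ^ Fintype.card ι :=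
      pow_le_pow_left₀ (by norm_num) (by norm_num) _
    calc (3:ℝ) ^ Fintype.card ι * 2 ^ (∑ a, b a) ≤ 4 ^ Fintype.card ι * 2 ^ (∑ a, b a) := by gcongr
      _ ≤ 4 ^ Fintype.card ι * 2 ^ (∑ a, b a) * (2 ^ K0 / 2 ^ (D * La q)) :=
          le_mul_of_one_le_right (by positivity) h3

theorem two_pow_dl_le_mx {q : ℕ} [NeZero q] (x : ZMod q) : (2:ℝ) ^ dl x ≤ mx x := by
  by_cases hx : x = 0
  · subst hx
    have : dl (0 : ZMod q) = 0 := by
      unfold dl
      rw [(nn_eq_zero (0 : ZMod q)).2 rfl]
      simp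
    rw [this, pow_zero]
    exact one_le_mx _
  · rw [mx_eq x hx]
    exact_mod_cast two_pow_dl_le x hx

theorem A6c : St_A6c := by
  intro κ
  refine ⟨4 ^ κ * 2 ^ κ * 2 ^ κ, by positivity, ?_⟩
  intro q hq hq3 ι _ _ hκ D K0 hD Λ hΛ
  classical
  have : NeZero q := ⟨by omega⟩
  have hL := one_le_La hq3
  set F := (univ : Finset (ι → ZMod q)).filter (fun h => h ∈ Λ ∧ h ≠ 0) with hF
  have hmap : ∀ h ∈ F, (fun a => dl (h a)) ∈ Fintype.piFinset (fun _ : ι => range (La q + 1)) := by
    intro h hh
    rw [Fintype.mem_piFinset]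
    exact fun a => mem_range.2 (Nat.lt_succ_of_le (dl_le _))
  have hqD : (q:ℝ) ^ D ≤ 2 ^ κ * 2 ^ (D * La q) := by
    have h1 : (q:ℝ) ≤ 2 ^ (La q + 1) := by exact_mod_cast (lt_La q).le
    calc (q:ℝ) ^ D ≤ (2 ^ (La q + 1)) ^ D := by gcongr
      _ = 2 ^ D * 2 ^ (D * La q) := by rw [← pow_mul, ← pow_add]; congr 1; ring
      _ ≤ 2 ^ κ * 2 ^ (D * La q) := by
          gcongr
          norm_num
  rw [← sum_fiberwise_of_maps_to hmap]
  have hbox : ∀ b ∈ Fintype.piFinset (fun _ : ι => range (La q + 1)),
      ∑ h ∈ F.filter (fun h => (fun a => dl (h a)) = b), (q:ℝ) ^ D * wm h ≤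
        4 ^ κ * 2 ^ κ * 2 ^ K0 := by
    intro b _
    have e1 : ∀ h ∈ F.filter (fun h => (fun a => dl (h a)) = b), (q:ℝ) ^ D * wm h ≤
        2 ^ κ * 2 ^ (D * La q) * (1 / 2 ^ (∑ a, b a)) := by
      intro h hh
      have hb : (fun a => dl (h a)) = b := (mem_filter.1 hh).2
      have h1 : wm h ≤ 1 / 2 ^ (∑ a, b a) := by
        unfold wm
        have h3 : (1:ℝ) / 2 ^ (∑ a, b a) = ∏ a, (1:ℝ) / 2 ^ (b a) := by
          rw [prod_div_distrib, prod_const_one, prod_pow_eq_pow_sum]
        rw [h3]
        apply prod_le_prod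
        · intro a _
          have := one_le_mx (h a)
          positivity
        · intro a _
          rw [← congrFun hb a]
          exact one_div_le_one_div_of_le (by positivity) (two_pow_dl_le_mx (h a))
      have h2 : 0 ≤ wm h := by
        unfold wm
        exact prod_nonneg fun a _ => by
          have := one_le_mx (h a)
          positivity
      exact mul_le_mul hqD h1 h2 (by positivity)
    refine (sum_le_sum e1).trans ?_
    rw [sum_const, nsmul_eq_mul]
    have hc := card_lattice_box D K0 Λ hΛ b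
    rw [hκ] at hc
    have hc2 : ((F.filter (fun h => (fun a => dl (h a)) = b)).card : ℝ) ≤
        4 ^ κ * 2 ^ (∑ a, b a) * 2 ^ K0 / 2 ^ (D * La q) := by
      refine le_trans ?_ hc
      have : (F.filter (fun h => (fun a => dl (h a)) = b)).card ≤
          ((univ : Finset (ι → ZMod q)).filter
            (fun h => (h ∈ Λ ∧ h ≠ 0) ∧ ∀ a, dl (h a) = b a)).card := by
        apply card_le_card
        intro h hh
        rw [mem_filter, hF, mem_filter] at hh
        rw [mem_filter]
        exact ⟨mem_univ _, hh.1.2, fun a => congrFun hh.2 a⟩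
      exact_mod_cast this
    calc ((F.filter (fun h => (fun a => dl (h a)) = b)).card : ℝ) *
          (2 ^ κ * 2 ^ (D * La q) * (1 / 2 ^ (∑ a, b a)))
        ≤ ((4:ℝ) ^ κ * 2 ^ (∑ a, b a) * 2 ^ K0 / 2 ^ (D * La q)) *
          (2 ^ κ * 2 ^ (D * La q) * (1 / 2 ^ (∑ a, b a))) := by gcongr
      _ = 4 ^ κ * 2 ^ κ * 2 ^ K0 := by
          have g1 : (2:ℝ) ^ (D * La q) ≠ 0 := by positivity
          have g2 : (2:ℝ) ^ (∑ a, b a) ≠ 0 := by positivity
          generalize (2:ℝ) ^ (D * La q) = A at g1 ⊢
          generalize (2:ℝ) ^ (∑ a, b a) = B at g2 ⊢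
          field_simp
  refine (sum_le_sum hbox).trans ?_
  rw [sum_const, nsmul_eq_mul, Fintype.card_piFinset, prod_const, card_range, card_univ, hκ]
  push_cast
  have h1 : (1:ℝ) ≤ La q := by exact_mod_cast hL
  calc ((La q : ℝ) + 1) ^ κ * (4 ^ κ * 2 ^ κ * 2 ^ K0)
      ≤ (2 * (La q : ℝ)) ^ κ * (4 ^ κ * 2 ^ κ * 2 ^ K0) := by
        gcongr
        linarith
    _ = 4 ^ κ * 2 ^ κ * 2 ^ κ * (La q : ℝ) ^ κ * 2 ^ K0 := by
        rw [mul_pow]; ring

end Pool.Agent.Y899.SD
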